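import Pool.Agent.Helper4.MS.UV

/-! Project MS (helper89, helper42): the package PUSH. -/

set_option autoImplicit false

open Finset

namespace Pool.Agent.Helper4.MS

open _root_.MS

variable {t m L : ℕ} {v : ℕ → ℝ} {F : Finset (Finset ℕ)}

/-- a set with the smallest intersection -/
theorem min_inter (L a : ℕ) (X : Finset ℕ) (hX : X ⊆ range L) (ha : a ≤ L) :
    ∃ A, A ⊆ range L ∧ #A = a ∧ #(A ∩ X) = a + #X - L := by
  have h0 : #X ≤ L := by
    have := card_le_card hX
    rwa [card_range] at this
  have h1 : #(range L \ X) = L - #X := by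
    rw [card_sdiff_of_subset hX, card_range]
  by_cases h : a ≤ L - #X
  · obtain ⟨A, hA, hAc⟩ := exists_subset_card_eq (h1 ▸ h : a ≤ #(range L \ X))
    refine ⟨A, hA.trans sdiff_subset, hAc, ?_⟩
    have h2 : A ∩ X = ∅ := by
      rw [← disjoint_iff_inter_eq_empty]
      exact disjoint_of_subset_left hA sdiff_disjoint
    rw [h2, card_empty]
    omega
  · obtain ⟨Y, hY, hYc⟩ := exists_subset_card_eq (by omega : a + #X - L ≤ #X)
    have hdis : Disjoint (range L \ X) Y := disjoint_of_subset_right hY sdiff_disjoint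
    refine ⟨(range L \ X) ∪ Y, union_subset sdiff_subset (hY.trans hX), ?_, ?_⟩
    · rw [card_union_of_disjoint hdis, h1, hYc]
      omega
    · have h2 : ((range L \ X) ∪ Y) ∩ X = Y := by
        ext x
        rw [mem_inter, mem_union, mem_sdiff]
        constructor
        · rintro ⟨h | h, hx⟩
          · exact absurd hx h.2
          · exact h
        · intro h
          exact ⟨Or.inr h, hY h⟩
      rw [h2, hYc]

theorem low_inter (L : ℕ) (A X : Finset ℕ) (hA : A ⊆ range L) (hX : X ⊆ range L) :
    #A + #X ≤ L + #(A ∩ X) := by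
  have h1 := card_union_add_card_inter A X
  have h2 := card_le_card (union_subset hA hX)
  rw [card_range] at h2
  omega

theorem U_le {a : ℕ} {y : Finset ℕ} (hy : y ∈ Ulev L m F a) : a ≤ L := by
  obtain ⟨h1, A, hA, hAc, hAF⟩ := mem_U.1 hy
  have := card_le_card hA
  rwa [card_range, hAc] at this

/-- the splitting of an intersection -/
theorem split_inter {A y C : Finset ℕ} (hA : A ⊆ range L) (hy : y ⊆ Ico (L + 1) m) :
    #((A ∪ y) ∩ C) = #(A ∩ (C ∩ range L)) + #(y ∩ (C \ range (L + 1))) := by
  have h1 : (A ∪ y) ∩ C = (A ∩ (C ∩ range L)) ∪ (y ∩ (C \ range (L + 1))) := by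
    ext x
    rw [mem_inter, mem_union, mem_union, mem_inter, mem_inter, mem_inter, mem_sdiff, mem_range,
      mem_range]
    constructor
    · rintro ⟨h | h, hx⟩
      · exact Or.inl ⟨h, hx, mem_range.1 (hA h)⟩
      · have := mem_Ico.1 (hy h)
        exact Or.inr ⟨h, hx, by omega⟩
    · rintro (h | h)
      · exact ⟨Or.inl h.1, h.2.1⟩
      · exact ⟨Or.inr h.1, h.2.1⟩
  rw [h1, card_union_of_disjoint]
  rw [Finset.disjoint_left]
  intro x hx hx'
  have h2 := mem_range.1 (hA (mem_inter.1 hx).1)
  have h3 := mem_Ico.1 (hy (mem_inter.1 hx').1)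
  omega

/-- the key inequality -/
theorem key (hLEV : LEVStm) (hG : Good t m v F) (hS : Sym L F) {a b : ℕ} {y : Finset ℕ}
    (hy : y ∈ Ulev L m F a) (hab : a + b = L + t) {C : Finset ℕ} (hC : C ∈ F) (hLC : L ∉ C)
    (he : #(C ∩ range L) ≠ b) :
    t + L + 1 ≤ a + #(C ∩ range L) + #(y ∩ (C \ range (L + 1))) ∨
      (a + #(C ∩ range L) ≤ L ∧ t ≤ #(y ∩ (C \ range (L + 1)))) := by
  have hyI := (mem_U.1 hy).1
  obtain ⟨A, hA, hAc, hAX⟩ := min_inter L a (C ∩ range L) inter_subset_right (U_le hy)
  have hAF := U_all hLEV hS hy hA hAc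
  have h1 := hG.ti.2 _ hAF _ hC
  rw [split_inter hA hyI, hAX] at h1
  by_cases h2 : a + #(C ∩ range L) ≤ L
  · right
    exact ⟨h2, by omega⟩
  left
  by_contra hcon
  -- an element of the intersection
  have h3 : 0 < #(y ∩ (C \ range (L + 1))) := by omega
  obtain ⟨x, hx⟩ := card_pos.1 h3
  rw [mem_inter, mem_sdiff] at hx
  have hxI := mem_Ico.1 (hyI hx.1)
  have hLA : L ∉ A ∪ y := by
    rw [mem_union, not_or]
    exact ⟨fun h => by have := mem_range.1 (hA h); omega, not_mem_Ico hyI⟩
  have h4 := hG.lc _ hAF L x (by omega) (mem_union_right _ hx.1) hLA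
  have h5 := hG.ti.2 _ h4 _ hC
  have h6 : insert L ((A ∪ y).erase x) ∩ C = ((A ∪ y) ∩ C).erase x := by
    ext z
    rw [mem_inter, mem_insert, mem_erase, mem_erase, mem_inter]
    constructor
    · rintro ⟨h | h, hz⟩
      · exact absurd (h ▸ hz) hLC
      · exact ⟨h.1, h.2, hz⟩
    · rintro ⟨h, h', h''⟩
      exact ⟨Or.inr ⟨h, h'⟩, h''⟩
  rw [h6, card_erase_of_mem (mem_inter.2 ⟨mem_union_right _ hx.1, hx.2.1⟩), split_inter hA hyI,
    hAX] at h5
  omega

theorem mem_lay {n0 a : ℕ} {Z : Finset (Finset ℕ)} {S : Finset ℕ} :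
    S ∈ lay n0 a Z ↔ ∃ B z, B ⊆ range n0 ∧ #B = a ∧ z ∈ Z ∧ B ∪ z = S := by
  unfold lay
  rw [mem_image]
  constructor
  · rintro ⟨⟨B, z⟩, h, h'⟩
    rw [mem_product, mem_powersetCard] at h
    exact ⟨B, z, h.1.1, h.1.2, h.2, h'⟩
  · rintro ⟨B, z, h1, h2, h3, h4⟩
    refine ⟨(B, z), ?_, h4⟩
    rw [mem_product, mem_powersetCard]
    exact ⟨⟨h1, h2⟩, h3⟩

/-- the intersection of a pushed set with a set -/
theorem split_push {A y C : Finset ℕ} (hA : A ⊆ range L) (hy : y ⊆ Ico (L + 1) m) :
    #((A ∪ insert L y) ∩ C) = #(A ∩ (C ∩ range L)) + #(y ∩ (C \ range (L + 1))) +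
      if L ∈ C then 1 else 0 := by
  have hLA : L ∉ (A ∪ y) ∩ C := by
    rw [mem_inter, mem_union, not_and_or, not_or]
    exact Or.inl ⟨fun h => by have := mem_range.1 (hA h); omega, not_mem_Ico hy⟩
  rw [← split_inter hA hy, union_insert]
  split_ifs with h
  · have h1 : insert L (A ∪ y) ∩ C = insert L ((A ∪ y) ∩ C) := by
      ext z
      rw [mem_inter, mem_insert, mem_insert, mem_inter]
      constructor
      · rintro ⟨h' | h', hz⟩
        · exact Or.inl h'
        · exact Or.inr ⟨h', hz⟩
      · rintro (h' | h')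
        · exact ⟨Or.inl h', h' ▸ h⟩
        · exact ⟨Or.inr h'.1, h'.2⟩
    rw [h1, card_insert_of_notMem hLA]
  · have h1 : insert L (A ∪ y) ∩ C = (A ∪ y) ∩ C := by
      ext z
      rw [mem_inter, mem_insert, mem_inter]
      constructor
      · rintro ⟨h' | h', hz⟩
        · exact absurd (h' ▸ hz) h
        · exact ⟨h', hz⟩
      · rintro ⟨h', hz⟩
        exact ⟨Or.inr h', hz⟩
    rw [h1, add_zero]

/-- new against old -/
theorem push_old (hLEV : LEVStm) (hG : Good t m v F) (hL : L < m) (hS : Sym L F) {a b : ℕ}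
    (ha : 1 ≤ a) {y : Finset ℕ} (hy : y ∈ Ulev L m F a) (hab : a + b = L + t) {A : Finset ℕ}
    (hA : A ⊆ range L) (hAc : #A = a - 1) {C : Finset ℕ} (hC : C ∈ F)
    (hCb : C ∉ lay L b (Ulev L m F b \ Vlev L m F b)) : t ≤ #((A ∪ insert L y) ∩ C) := by
  have hyI := (mem_U.1 hy).1
  have haL := U_le hy
  have hCm := hG.ti.1 C hC
  have hlow := low_inter L A (C ∩ range L) hA inter_subset_right
  rw [split_push hA hyI]
  by_cases hLC : L ∈ C
  · rw [if_pos hLC]
    obtain ⟨A', hA', hAc', hAX⟩ := min_inter L a (C ∩ range L) inter_subset_right haL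
    have h1 := hG.ti.2 _ (U_all hLEV hS hy hA' hAc') _ hC
    rw [split_inter hA' hyI, hAX] at h1
    omega
  · rw [if_neg hLC, add_zero]
    have hzI : C \ range (L + 1) ⊆ Ico (L + 1) m := by
      intro x hx
      rw [mem_sdiff, mem_range] at hx
      exact mem_Ico.2 ⟨by omega, mem_range.1 (hCm hx.1)⟩
    have hCe : (C ∩ range L) ∪ (C \ range (L + 1)) = C := by
      ext x
      rw [mem_union, mem_inter, mem_sdiff, mem_range, mem_range]
      constructor
      · rintro (h | h)
        · exact h.1
        · exact h.1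
      · intro h
        have hxj : x ≠ L := fun e => hLC (e ▸ h)
        by_cases hx : x < L
        · exact Or.inl ⟨h, hx⟩
        · exact Or.inr ⟨h, by omega⟩
    by_cases hV : C \ range (L + 1) ∈ Vlev L m F (#(C ∩ range L))
    · -- not in `X`
      obtain ⟨-, C0, hC0, hC0c, -⟩ := mem_V.1 hV
      have h2 := V_all hLEV hS hV hC0 hC0c
      obtain ⟨A', hA', hAc', hAX⟩ := min_inter L a C0 hC0 haL
      have h3 := hG.ti.2 _ (U_all hLEV hS hy hA' hAc') _ h2
      rw [split_inter hA' hyI] at h3
      have e1 : insert L (C0 ∪ C \ range (L + 1)) ∩ range L = C0 := by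
        ext x
        rw [mem_inter, mem_insert, mem_union, mem_sdiff, mem_range, mem_range]
        constructor
        · rintro ⟨h | h | h, hx⟩
          · omega
          · exact h
          · omega
        · intro h
          have := mem_range.1 (hC0 h)
          exact ⟨Or.inr (Or.inl h), this⟩
      have e2 : insert L (C0 ∪ C \ range (L + 1)) \ range (L + 1) = C \ range (L + 1) := by
        ext x
        rw [mem_sdiff, mem_insert, mem_union, mem_sdiff, mem_range]
        constructor
        · rintro ⟨h | h | h, hx⟩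
          · omega
          · have := mem_range.1 (hC0 h)
            omega
          · exact h
        · intro h
          exact ⟨Or.inr (Or.inr h), h.2⟩
      rw [e1, e2, hAX] at h3
      omega
    · have hU : C \ range (L + 1) ∈ Ulev L m F (#(C ∩ range L)) :=
        mem_U.2 ⟨hzI, C ∩ range L, inter_subset_right, rfl, by rw [hCe]; exact hC⟩
      have he : #(C ∩ range L) ≠ b := by
        rintro rfl
        apply hCb
        rw [mem_lay]
        exact ⟨C ∩ range L, C \ range (L + 1), inter_subset_right, rfl,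
          mem_sdiff.2 ⟨hU, hV⟩, hCe⟩
      rcases key hLEV hG hS hy hab hC hLC he with h | h
      · omega
      · omega

/-- PUSH -/
theorem PUSH (hLEV : LEVStm) : PUSHStm := by
  intro t m L a b v F _ hG hL hS ha hab' hab
  have hnew : ∀ S ∈ lay L (a - 1) ((Ulev L m F a \ Vlev L m F a).image (insert L)),
      ∃ A y, A ⊆ range L ∧ #A = a - 1 ∧ y ∈ Ulev L m F a ∧ A ∪ insert L y = S := by
    intro S hS'
    obtain ⟨B, z, h1, h2, h3, h4⟩ := mem_lay.1 hS'
    obtain ⟨y, hy, rfl⟩ := mem_image.1 h3
    exact ⟨B, y, h1, h2, (mem_sdiff.1 hy).1, h4⟩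
  constructor
  · intro S hS'
    rcases mem_union.1 hS' with h | h
    · exact hG.ti.1 S (mem_sdiff.1 h).1
    · obtain ⟨A, y, hA, hAc, hy, rfl⟩ := hnew S h
      intro x hx
      rw [union_insert, mem_insert] at hx
      rcases hx with rfl | hx
      · exact mem_range.2 hL
      · exact sub_range_m hL hA (mem_U.1 hy).1 hx
  · intro S hS' T hT
    rcases mem_union.1 hS' with h | h
    · rcases mem_union.1 hT with h' | h'
      · exact hG.ti.2 S (mem_sdiff.1 h).1 T (mem_sdiff.1 h').1
      · obtain ⟨A, y, hA, hAc, hy, rfl⟩ := hnew T h'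
        rw [inter_comm]
        exact push_old hLEV hG hL hS ha hy hab hA hAc (mem_sdiff.1 h).1 (mem_sdiff.1 h).2
    · obtain ⟨A, y, hA, hAc, hy, rfl⟩ := hnew S h
      rcases mem_union.1 hT with h' | h'
      · exact push_old hLEV hG hL hS ha hy hab hA hAc (mem_sdiff.1 h').1 (mem_sdiff.1 h').2
      · obtain ⟨A', y', hA', hAc', hy', rfl⟩ := hnew T h'
        -- new against new
        have hyI := (mem_U.1 hy).1
        have hyI' := (mem_U.1 hy').1
        obtain ⟨A2, hA2, hAc2, hAF2⟩ := (mem_U.1 hy').2
        have hge : ∀ x ∈ y', L ≤ x := ge_of_Ico hyI'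
        have e1 : (A2 ∪ y') ∩ range L = A2 := inter_left hA2 hge
        have e2 : (A2 ∪ y') \ range (L + 1) = y' := by
          ext x
          rw [mem_sdiff, mem_union, mem_range]
          constructor
          · rintro ⟨h | h, hx⟩
            · have := mem_range.1 (hA2 h)
              omega
            · exact h
          · intro h
            have := mem_Ico.1 (hyI' h)
            exact ⟨Or.inr h, by omega⟩
        have hLC : L ∉ A2 ∪ y' := by
          rw [mem_union, not_or]
          exact ⟨fun h => by have := mem_range.1 (hA2 h); omega, not_mem_Ico hyI'⟩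
        have h1 := key hLEV hG hS hy hab hAF2 hLC (by rw [e1, hAc2]; exact hab')
        rw [e1, e2, hAc2] at h1
        have h2 := low_inter L A A' hA hA'
        rw [split_push hA hyI, if_pos (mem_union_right _ (mem_insert_self _ _))]
        have e3 : (A' ∪ insert L y') ∩ range L = A' := by
          refine inter_left hA' ?_
          intro x hx
          rcases mem_insert.1 hx with h | h
          · exact h.ge
          · exact hge x h
        have e4 : (A' ∪ insert L y') \ range (L + 1) = y' := by
          ext x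
          rw [mem_sdiff, mem_union, mem_insert, mem_range]
          constructor
          · rintro ⟨h | h | h, hx⟩
            · have := mem_range.1 (hA' h)
              omega
            · omega
            · exact h
          · intro h
            have := mem_Ico.1 (hyI' h)
            exact ⟨Or.inr (Or.inr h), by omega⟩
        rw [e3, e4]
        omega

end Pool.Agent.Helper4.MS
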