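import Pool.Agent.Helper89.MS.Sheet

/-! Project MS (helper89, helper42): the package UV. -/

set_option autoImplicit false

open Finset

namespace Pool.Agent.Helper4.MS

open _root_.MS

variable {t m L : ℕ} {v : ℕ → ℝ} {F : Finset (Finset ℕ)}

theorem mem_U {a : ℕ} {y : Finset ℕ} : y ∈ Ulev L m F a ↔
    y ⊆ Ico (L + 1) m ∧ ∃ A, A ⊆ range L ∧ #A = a ∧ A ∪ y ∈ F := by
  unfold Ulev
  rw [mem_filter, mem_powerset]

theorem mem_V {a : ℕ} {y : Finset ℕ} : y ∈ Vlev L m F a ↔
    y ⊆ Ico (L + 1) m ∧ ∃ A, A ⊆ range L ∧ #A + 1 = a ∧ insert L (A ∪ y) ∈ F := by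
  unfold Vlev
  rw [mem_filter, mem_powerset]

theorem inter_left {A y : Finset ℕ} (hA : A ⊆ range L) (hy : ∀ x ∈ y, L ≤ x) :
    (A ∪ y) ∩ range L = A := by
  ext x
  rw [mem_inter, mem_union, mem_range]
  constructor
  · rintro ⟨h | h, hx⟩
    · exact h
    · exact absurd (hy x h) (by omega)
  · intro h
    exact ⟨Or.inl h, mem_range.1 (hA h)⟩

theorem sdiff_left {A y : Finset ℕ} (hA : A ⊆ range L) (hy : ∀ x ∈ y, L ≤ x) :
    (A ∪ y) \ range L = y := by
  ext x
  rw [mem_sdiff, mem_union, mem_range]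
  constructor
  · rintro ⟨h | h, hx⟩
    · exact absurd (mem_range.1 (hA h)) hx
    · exact h
  · intro h
    exact ⟨Or.inr h, by have := hy x h; omega⟩

theorem ge_of_Ico {y : Finset ℕ} (hy : y ⊆ Ico (L + 1) m) : ∀ x ∈ y, L ≤ x := fun x hx => by
  have := mem_Ico.1 (hy hx)
  omega

theorem not_mem_Ico {y : Finset ℕ} (hy : y ⊆ Ico (L + 1) m) : L ∉ y := fun h => by
  have := mem_Ico.1 (hy h)
  omega

/-- part 1 -/
theorem U_all (hLEV : LEVStm) (hS : Sym L F) {a : ℕ} {y : Finset ℕ} (hy : y ∈ Ulev L m F a)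
    {A : Finset ℕ} (hA : A ⊆ range L) (hc : #A = a) : A ∪ y ∈ F := by
  obtain ⟨h1, B, hB, hBc, hBF⟩ := mem_U.1 hy
  have h2 := hLEV L F hS (B ∪ y) hBF A hA (by
    rw [inter_left hB (ge_of_Ico h1), hc, hBc])
  rwa [sdiff_left hB (ge_of_Ico h1)] at h2

/-- part 2 -/
theorem V_all (hLEV : LEVStm) (hS : Sym L F) {a : ℕ} {y : Finset ℕ} (hy : y ∈ Vlev L m F a)
    {A : Finset ℕ} (hA : A ⊆ range L) (hc : #A + 1 = a) : insert L (A ∪ y) ∈ F := by
  obtain ⟨h1, B, hB, hBc, hBF⟩ := mem_V.1 hy
  have hge : ∀ x ∈ insert L y, L ≤ x := by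
    intro x hx
    rcases mem_insert.1 hx with h | h
    · exact h.ge
    · exact ge_of_Ico h1 x h
  have e : ∀ C : Finset ℕ, insert L (C ∪ y) = C ∪ insert L y := fun C => by
    rw [union_insert]
  rw [e] at hBF ⊢
  have h2 := hLEV L F hS (B ∪ insert L y) hBF A hA (by
    rw [inter_left hB hge]
    omega)
  rwa [sdiff_left hB hge] at h2

theorem V_sub (hLEV : LEVStm) (hG : Good t m v F) (hS : Sym L F) {a : ℕ} (ha : a ≤ L) :
    Vlev L m F a ⊆ Ulev L m F a := by
  intro y hy
  obtain ⟨h1, A, hA, hAc, hAF⟩ := mem_V.1 hy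
  obtain ⟨i, hi, hiA⟩ : ∃ i ∈ range L, i ∉ A := by
    by_contra hcon
    push Not at hcon
    have h2 : #(range L) ≤ #A := card_le_card hcon
    rw [card_range] at h2
    omega
  have hiL := mem_range.1 hi
  have hLA : L ∉ A := fun h => by
    have := mem_range.1 (hA h)
    omega
  have hLy := not_mem_Ico h1
  have h2 : i ∉ insert L (A ∪ y) := by
    rw [mem_insert, mem_union, not_or, not_or]
    exact ⟨by omega, hiA, fun h => by have := mem_Ico.1 (h1 h); omega⟩
  have h3 := hG.lc _ hAF i L hiL (mem_insert_self _ _) h2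
  rw [erase_insert (by rw [mem_union, not_or]; exact ⟨hLA, hLy⟩)] at h3
  refine mem_U.2 ⟨h1, insert i A, ?_, ?_, ?_⟩
  · intro x hx
    rcases mem_insert.1 hx with h | h
    · rw [h]; exact hi
    · exact hA h
  · rw [card_insert_of_notMem hiA, hAc]
  · rw [insert_union]
    exact h3

theorem sub_range_m {A y : Finset ℕ} (hL : L < m) (hA : A ⊆ range L) (hy : y ⊆ Ico (L + 1) m) :
    A ∪ y ⊆ range m := by
  intro x hx
  rcases mem_union.1 hx with h | h
  · exact mem_range.2 ((mem_range.1 (hA h)).trans hL)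
  · exact mem_range.2 (mem_Ico.1 (hy h)).2

theorem U_up (hG : Good t m v F) (hL : L < m) {a : ℕ} {y : Finset ℕ} (hy : y ∈ Ulev L m F a)
    {y' : Finset ℕ} (h : y ⊆ y') (h' : y' ⊆ Ico (L + 1) m) : y' ∈ Ulev L m F a := by
  obtain ⟨h1, A, hA, hAc, hAF⟩ := mem_U.1 hy
  exact mem_U.2 ⟨h', A, hA, hAc, hG.up _ hAF _ (union_subset_union_right h)
    (sub_range_m hL hA h')⟩

theorem V_up (hG : Good t m v F) (hL : L < m) {a : ℕ} {y : Finset ℕ} (hy : y ∈ Vlev L m F a)
    {y' : Finset ℕ} (h : y ⊆ y') (h' : y' ⊆ Ico (L + 1) m) : y' ∈ Vlev L m F a := by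
  obtain ⟨h1, A, hA, hAc, hAF⟩ := mem_V.1 hy
  refine mem_V.2 ⟨h', A, hA, hAc, hG.up _ hAF _ (insert_subset_insert _
    (union_subset_union_right h)) ?_⟩
  intro x hx
  rcases mem_insert.1 hx with hx | hx
  · rw [hx]; exact mem_range.2 hL
  · exact sub_range_m hL hA h' hx

theorem UV (hLEV : LEVStm) : UVStm := by
  intro t m L v F hG hL hS
  refine ⟨fun a y hy A hA hc => U_all hLEV hS hy hA hc,
    fun a y hy A hA hc => V_all hLEV hS hy hA hc, fun a ha => V_sub hLEV hG hS ha,
    fun a y hy y' h h' => U_up hG hL hy h h', fun a y hy y' h h' => V_up hG hL hy h h', ?_, ?_⟩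
  · intro hns
    unfold _root_.MS.Sym at hns
    push Not at hns
    obtain ⟨S, hSF, i, j, hi, hj, hiS, hjS, hnot⟩ := hns
    have hij : i ≠ j := fun h => hjS (h ▸ hiS)
    have hjL : j = L := by
      by_contra hne
      have hj' : j < L := by omega
      by_cases hiL : i = L
      · subst hiL
        exact hnot (hG.lc S hSF j i hj' hiS hjS)
      · exact hnot (hS S hSF i j (by omega) hj' hiS hjS)
    subst hjL
    have hiL : i < j := by omega
    have hSm := hG.ti.1 S hSF
    set A := S ∩ range j with hA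
    set y := S \ range (j + 1) with hy
    have hy1 : y ⊆ Ico (j + 1) m := by
      intro x hx
      rw [hy, mem_sdiff, mem_range] at hx
      exact mem_Ico.2 ⟨by omega, mem_range.1 (hSm hx.1)⟩
    have hSA : A ∪ y = S := by
      ext x
      rw [mem_union, hA, hy, mem_inter, mem_sdiff, mem_range, mem_range]
      constructor
      · rintro (h | h)
        · exact h.1
        · exact h.1
      · intro h
        have hxj : x ≠ j := fun e => hjS (e ▸ h)
        by_cases hx : x < j
        · exact Or.inl ⟨h, hx⟩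
        · exact Or.inr ⟨h, by omega⟩
    have hiA : i ∈ A := by
      rw [hA, mem_inter, mem_range]
      exact ⟨hiS, hiL⟩
    refine ⟨#A, card_pos.2 ⟨i, hiA⟩, ?_, y, mem_U.2 ⟨hy1, A, inter_subset_right, rfl,
      by rw [hSA]; exact hSF⟩, ?_⟩
    · have := card_le_card (inter_subset_right : S ∩ range j ⊆ range j)
      rwa [card_range] at this
    · intro hV
      apply hnot
      have h1 := V_all hLEV hS hV (A := A.erase i)
        ((erase_subset _ _).trans inter_subset_right) (by
          rw [card_erase_of_mem hiA]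
          have := card_pos.2 ⟨i, hiA⟩
          omega)
      have h2 : A.erase i ∪ y = S.erase i := by
        rw [← hSA]
        ext x
        rw [mem_union, mem_erase, mem_erase, mem_union]
        constructor
        · rintro (h | h)
          · exact ⟨h.1, Or.inl h.2⟩
          · refine ⟨?_, Or.inr h⟩
            rintro rfl
            have := mem_Ico.1 (hy1 h)
            omega
        · rintro ⟨h, h' | h'⟩
          · exact Or.inl ⟨h, h'⟩
          · exact Or.inr h'
      rwa [h2] at h1
  · intro a ha y hyU hyV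
    obtain ⟨h1, A, hA, hAc, hAF⟩ := mem_U.1 hyU
    obtain ⟨B, hBF, hBS, hBv⟩ := hG.pos _ hAF
    have hSm := hG.ti.1 _ hAF
    have hAB : A ⊆ B := by
      intro x hx
      by_contra hxB
      apply hyV
      have hxL := mem_range.1 (hA hx)
      have h2 : (A ∪ y).erase x ∈ F := by
        refine hG.up B hBF _ ?_ ((erase_subset _ _).trans hSm)
        intro z hz
        rw [mem_erase]
        exact ⟨fun e => hxB (e ▸ hz), hBS hz⟩
      have h3 : insert L ((A ∪ y).erase x) ∈ F := by
        refine hG.up _ h2 _ (subset_insert _ _) ?_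
        intro z hz
        rcases mem_insert.1 hz with h | h
        · rw [h]; exact mem_range.2 hL
        · exact hSm (erase_subset _ _ h)
      refine mem_V.2 ⟨h1, A.erase x, (erase_subset _ _).trans hA, ?_, ?_⟩
      · rw [card_erase_of_mem hx]
        omega
      · have h4 : A.erase x ∪ y = (A ∪ y).erase x := by
          ext z
          rw [mem_union, mem_erase, mem_erase, mem_union]
          constructor
          · rintro (h | h)
            · exact ⟨h.1, Or.inl h.2⟩
            · refine ⟨?_, Or.inr h⟩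
              rintro rfl
              have := mem_Ico.1 (h1 h)
              omega
          · rintro ⟨h, h' | h'⟩
            · exact Or.inl ⟨h, h'⟩
            · exact Or.inr h'
        rw [h4]
        exact h3
    set y' := B \ range L with hy'
    have hy'y : y' ⊆ y := by
      intro x hx
      rw [hy', mem_sdiff, mem_range] at hx
      rcases mem_union.1 (hBS hx.1) with h | h
      · exact absurd (mem_range.1 (hA h)) hx.2
      · exact h
    have hBA : A ∪ y' = B := by
      ext x
      rw [mem_union, hy', mem_sdiff, mem_range]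
      constructor
      · rintro (h | h)
        · exact hAB h
        · exact h.1
      · intro h
        by_cases hx : x < L
        · left
          rcases mem_union.1 (hBS h) with h' | h'
          · exact h'
          · have := mem_Ico.1 (h1 h')
            omega
        · exact Or.inr ⟨h, hx⟩
    refine ⟨y', mem_U.2 ⟨hy'y.trans h1, A, hA, hAc, by rw [hBA]; exact hBF⟩, fun hV =>
      hyV (V_up hG hL hV hy'y h1), ?_⟩
    have hdis : Disjoint A y' := by
      rw [Finset.disjoint_left]
      intro x hx hx'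
      have h2 := mem_range.1 (hA hx)
      have h3 := mem_Ico.1 (h1 (hy'y hx'))
      omega
    have hc : #B = a + #y' := by
      rw [← hBA, card_union_of_disjoint hdis, hAc]
    rwa [← hc]

end Pool.Agent.Helper4.MS
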